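import Pool.Agent.Y173.QA.MainU

/-! Abundance for quotients of varieties with many closed 1-forms. -/

set_option autoImplicit false
set_option linter.overlappingInstances false

open FF IntermediateField Pool.Agent.W619.TW Pool.Agent.W619.Y Pool.Agent.Y173.QA

namespace Pool.Agent.Results.MP_5ff3c6_ag.AbundanceClosedForms

/-- Let `Z` be a projective manifold of dimension `n` with function field `L`, `G` a finite group
of birational automorphisms of `Z`, `V` a `G`-stable space of closed regular `1`-forms on `Z` which
generically generates the cotangent bundle (`hgen`), and `X` a projective manifold birational to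
`Z / G`. Assume the Reid-Tai condition on the eigenvalues of the elements of `G` on `V`. Let `d` be
the dimension of the space of rational vector fields on `Z` on which all forms in `V` are constant.
Then `κ (X) ≥ n - d`; and if these vector fields are regular on some projective model of `Z`, then
`ν (X) ≤ n - d`, so that `κ (X) = ν (X) = n - d`. (For a subvariety `Z` of an abelian variety with
the invariant `1`-forms, the vector fields are those of the stabilizer of `Z`.) -/
theorem result {k L : Type} [Field k] [CharZero k] [IsAlgClosed k] [Field L] [Algebra k L]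
    [Algebra.EssFiniteType k L] {n : ℕ} (hn : Algebra.trdeg k L = n)
    (G : Subgroup (L ≃ₐ[k] L)) [Finite G] (V : Submodule k (Derivation k L L →ₗ[L] L))
    (hreg : ∀ θ ∈ V, IsRegForm n θ) (hcl : ∀ θ ∈ V, IsClosedForm θ)
    (hstab : ∀ g ∈ G, ∀ θ ∈ V, ∃ θ' ∈ V, IsImage g θ θ')
    (hgen : ∃ (θ : Fin n → Derivation k L L →ₗ[L] L) (D : Fin n → Derivation k L L),
      (∀ i, θ i ∈ V) ∧ (Matrix.of fun i j => θ i (D j)).det ≠ 0)
    (hRT : ReidTai n G V 0) :
    ∃ a : ℕ, a + Module.finrank k (constFields V) = n ∧ KodTr k (fixedField G) n a ∧
      (IsRegularOnModel (constFields V) → NumLe k (fixedField G) n (fun _ => False) a) :=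
  mainU hn G V hreg hcl hstab hgen hRT

end Pool.Agent.Results.MP_5ff3c6_ag.AbundanceClosedForms
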