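import Pool.Agent.Y173.QA.MainA

/-! Abundance for quotients of varieties with many regular 1-forms. -/

set_option autoImplicit false
set_option linter.overlappingInstances false

universe u v

open FF IntermediateField Pool.Agent.W619.TW Pool.Agent.W619.Y Pool.Agent.Y173.QA

namespace Pool.Agent.Results.MP_5ff3c6_ag.AlbaneseTransfer

/-- Let `Z` be a projective manifold of dimension `n` with function field `L`, `G` a finite group
of birational automorphisms of `Z`, `V` a `G`-stable space of regular `1`-forms on `Z` which
generically generates the cotangent bundle (`hgen`), for instance all regular `1`-forms on a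
variety of maximal Albanese dimension, and `X` a projective manifold birational to `Z / G`. Assume
the Reid-Tai condition (strict version) on the eigenvalues of the elements of `G` on `V`. Then
`κ (X) ≥ 0`, `κ (X) = κ (Z)` and `ν (X) = ν (Z)`. -/
theorem result {k : Type v} {L : Type u} [Field k] [CharZero k] [IsAlgClosed k] [Field L]
    [Algebra k L] [Algebra.EssFiniteType k L] {n : ℕ} (hn : Algebra.trdeg k L = n)
    (G : Subgroup (L ≃ₐ[k] L)) [Finite G] (V : Submodule k (Derivation k L L →ₗ[L] L))
    (hreg : ∀ θ ∈ V, IsRegForm n θ)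
    (hstab : ∀ g ∈ G, ∀ θ ∈ V, ∃ θ' ∈ V, IsImage g θ θ')
    (hgen : ∃ (θ : Fin n → Derivation k L L →ₗ[L] L) (D : Fin n → Derivation k L L),
      (∀ i, θ i ∈ V) ∧ (Matrix.of fun i j => θ i (D j)).det ≠ 0)
    (hRT : ReidTai n G V 1) :
    KodTr k (fixedField G) n 0 ∧ ∀ a, (KodTr k (fixedField G) n a ↔ KodTr k L n a) ∧
      (NumLe k (fixedField G) n (fun _ => False) a ↔ NumLe k L n (fun _ => False) a) :=
  transfer hn G V hreg hstab hgen hRT

end Pool.Agent.Results.MP_5ff3c6_ag.AlbaneseTransfer
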