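import Pool.Agent.Y191.LcRam

/-!
# Abundance for varieties whose fibres correspond to moving log canonical arrangements

Let `X` be a projective variety with canonical singularities (for instance a minimal variety or a
manifold), `X ⇢ P^v` a rational map whose image `Y`, any subvariety of `P^v`, has dimension `p`.
Suppose:

* (the base) `ℓ i = 0`, `i < q`, are hyperplanes in general position which do not contain `Y`, such
  that the points `ℓ i` impose independent conditions on the forms of degree `d`, with weights
  `wt i ≥ 0` whose sum is greater than `(p + 1) γ`, `γ = (v - p + d).choose (v - p)`; if `e i` is the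
  multiplicity of the hyperplane `ℓ i = 0` at the prime divisor `P` of `X` (for the divisors without
  fixed component which the map defines) then `min (#{i | e i ≠ 0}) γ ≤ ∑ i, (1 - wt i) e i`;
  or: `p ≥ 1`, there are more than `(v + Q).choose v` general hyperplanes, `2 v m ≤ Q (m - 1)`,
  `m ≥ 2`, and each `e i` is `0` or at least `m`;
* (the fibres) there is a correspondence between `X` and a relative product of projective spaces:
  a variety `X'` with a generically finite map `X' ⇢ X` (any finite extension `K'` of the function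
  field `K`, ramified anywhere) and a generically finite map over `Y` of `X'` to
  `Y' × P^{r_1} × ... × P^{r_c}`, `r_j ≥ 1`, `Y'` finite over `Y`, and in each `P^{r_j}` there are
  any hyperplanes `A j i = 0` which move with the point of `Y'`, with weights `w j i` in `[0, 1]`
  such that the arrangement is log canonical: the sum of the weights of hyperplanes with a common
  point is at most the codimension of their intersection. If `Q` is a place of `K'` over a prime
  divisor `P` of `X` which dominates `Y`, with ramification index `ε`, and `e j i` are the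
  multiplicities of the hyperplanes at `Q`, not all zero, then `ε` is at most
  `∑ (mx_j - ∑ w j i e j i)`, where `mx_j` is the greatest sum of `r_j + 1` of the `e j i` whose
  hyperplanes have no common point (`ε = 1`, if all `e j i` are zero); and if `Q` is a place of `K'`
  over a prime divisor of `P^{r_1} × ... × P^{r_c}` over `Y`, with ramification index `ρ`, and with
  ramification index `ε` over `K`, then `ρ - ε ≤ ∑ w j i e j i`.

Then `κ(X) = ν(X)`: `K_X` is pseudo-effective if and only if `∑ i, w j i ≥ r_j + 1` for all `j`; then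
`κ(X) = ν(X) = p + l`, where `l` is the sum of the `r_j` with `∑ i, w j i > r_j + 1`; otherwise
`κ(X) = ν(X) = -∞`. For minimal `X` this means that `K_X` is semiample (Kawamata).

The hyperplanes may have any intersections, also all the arrangements of lines in the plane and the
boundaries of the moduli spaces of pointed rational curves; the generic fibre may be a cover which is
ramified over such an arrangement, or a quotient by a finite group of a product of such covers, with
canonical singularities, of any Kodaira dimension. The monodromy over `Y` may be arbitrary.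

The language and the definitions of `Pool.Agent.Y172` are used: `X` is given by the homogeneous
coordinates `y` of its generic point, with values in the function field `K` of `X`; the prime divisors
of `X` are places `P` of `K`, `P.ord` is the order along `P`.

Proof: by the Rado-Horn theorem (`exists_bases`) the weight vector of a log canonical arrangement,
multiplied by a positive integer, is a sum of indicator vectors of bases, so that there are products
of determinants of logarithmic derivatives of the linear forms along the fibres of `X'` which are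
sections along the fibres (`lc_low`); their norms to `K` are multiplied by the form of the base of
`Pool.Agent.Y191`. For the upper bound, the sections of `m K_X + A` are pulled back to `X'`; their
traces to the field of `Y' × P^{r_1} × ... × P^{r_c}`, multiplied by the forms of the arrangement to
the powers `⌈m w j i⌉`, are polynomials of bounded degree in the coordinates of the factors with
`∑ i, w j i = r_j + 1`, up to a denominator which does not depend on `m`, and they vanish if
`∑ i, w j i < r_j + 1` for some `j` (`lc_ab`).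
-/

set_option autoImplicit false

open FF Pool.Agent.W602.GT Pool.Agent.Y172 Pool.Agent.Y191

namespace Pool.Agent.Results.MP_5ff3c6_ag.LogCanonicalArrangements

section

variable {K : Type} [Field K] [Algebra ℂ K] {N : ℕ}

/-- `X` is a projective variety of dimension `n` with canonical singularities. -/
def IsCanonicalVariety (y : Fin (N + 1) → K) (n : ℕ) : Prop :=
  NormalModel y ∧ Algebra.trdeg ℂ K = n ∧ Canonical y n

/-- The `b j` are the coordinates of a rational map whose image has dimension `p` and is not
contained in one of the hyperplanes `ℓ i = 0`. -/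
def IsMap {v q : ℕ} (ℓ : Fin q → Fin (v + 1) → ℂ) (b : Fin (v + 1) → K) (p : ℕ) : Prop :=
  (∀ i, lf (ℓ i) b ≠ 0) ∧ (∃ j, b j ≠ 0) ∧ Algebra.trdeg ℂ (RF ℂ b) = p

/-- There is a finite extension `K'` of `K`, and the `u ⟨j, k⟩` are the affine coordinates of a
generically finite map, over the variety with the function field `L`, of a variety with the function
field `K'` to a product of projective spaces of dimensions `r j ≥ 1`; `A j i` are the coefficients of
hyperplanes, algebraic over `L`, with weights `w j i` in `[0, 1]` such that the arrangement is log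
canonical (`LcArr`). The multiplicities are bounded at the places over the prime divisors of `X`
which are trivial on `L` (`LcHor`) and at the places over the prime divisors of the product
(`RamK`). -/
def Fibres (y : Fin (N + 1) → K) (L : IntermediateField ℂ K) {c : ℕ}
    (r s : Fin c → ℕ) (w : ∀ j, Fin (s j) → ℚ) : Prop :=
  (∀ j, 1 ≤ r j ∧ ∀ i, 0 ≤ w j i ∧ w j i ≤ 1) ∧
  ∃ (K' : Type) (_ : Field K') (_ : Algebra ℂ K') (_ : Algebra K K') (_ : IsScalarTower ℂ K K')
    (_ : FiniteDimensional K K') (A : ∀ j, Fin (s j) → Fin (r j + 1) → K')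
    (u : (Σ j, Fin (r j)) → K'),
    LcArr (upF K' L) A w ∧ IsTranscendenceBasis (upF K' L) u ∧
    LcHor L A u w {P | IsPrimeDivisor y P} (fun _ => 0) ∧ RamK K (upF K' L) A u w

/-- the sum of the dimensions `r j` for which the sum of the weights is greater than `r j + 1` -/
def big {c : ℕ} (r s : Fin c → ℕ) (w : ∀ j, Fin (s j) → ℚ) : ℕ :=
  ∑ j, if (r j + 1 : ℚ) < ∑ i, w j i then r j else 0

/-- If the sums of the weights are at least `r j + 1` then the Kodaira dimension and the numerical
dimension (with respect to any effective integral divisor `A`) of `K_X` are `p + big`; otherwise both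
are `-∞`. -/
def Abundance (y : Fin (N + 1) → K) (n p : ℕ) {c : ℕ} (r s : Fin c → ℕ)
    (w : ∀ j, Fin (s j) → ℚ) : Prop :=
  ((∀ j, (r j + 1 : ℚ) ≤ ∑ i, w j i) → kodairaDim y n 0 = ((p + big r s w : ℕ) : WithBot ℕ) ∧
    ∀ A, Effective y A → Integral y A → numericalDim y n 0 A = ((p + big r s w : ℕ) : EReal)) ∧
  ((∃ j, ∑ i, w j i < (r j + 1 : ℚ)) → kodairaDim y n 0 = ⊥ ∧
    ∀ A, Effective y A → numericalDim y n 0 A = ⊥)

end

theorem exists_idx {c : ℕ} (r q : Fin c → ℕ) (w : ∀ j, Fin (q j) → ℚ) :
    ∃ κ : Fin (big r q w) → Σ j, Fin (r j), Function.Injective κ ∧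
      ∀ i, (r (κ i).1 + 1 : ℚ) < ∑ i', w (κ i).1 i' := by
  classical
  have h1 : Fintype.card {x : Σ j, Fin (r j) // (r x.1 + 1 : ℚ) < ∑ i, w x.1 i} = big r q w := by
    rw [Fintype.card_subtype, Finset.card_filter, Fintype.sum_sigma]
    refine Finset.sum_congr rfl fun j _ => ?_
    change ∑ _k : Fin (r j), (if (r j + 1 : ℚ) < ∑ i, w j i then 1 else 0) = _
    rw [Finset.sum_const, Finset.card_univ, Fintype.card_fin, smul_eq_mul, mul_ite, mul_one,
      mul_zero]
  let φ := Fintype.equivFinOfCardEq h1
  exact ⟨fun i => (φ.symm i : Σ j, Fin (r j)), fun a b hab => φ.symm.injective (Subtype.ext hab),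
    fun i => (φ.symm i).2⟩

theorem abundance_of {K : Type} [Field K] [Algebra ℂ K] {N p c : ℕ} {y : Fin (N + 1) → K}
    {r s : Fin c → ℕ} {w : ∀ j, Fin (s j) → ℚ} {L : IntermediateField ℂ K}
    (hy : IsCanonicalVariety y (p + ∑ j, r j)) {K' : Type} [Field K'] [Algebra ℂ K']
    [Algebra K K'] [IsScalarTower ℂ K K'] [FiniteDimensional K K']
    {A : ∀ j, Fin (s j) → Fin (r j + 1) → K'}
    {u : (Σ j, Fin (r j)) → K'} (hw : ∀ j, 1 ≤ r j ∧ ∀ i, 0 ≤ w j i ∧ w j i ≤ 1)
    (hA : LcArr (upF K' L) A w) (hu : IsTranscendenceBasis (upF K' L) u)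
    (hC : RamK K (upF K' L) A u w)
    (hK : (∀ j, (r j + 1 : ℚ) ≤ ∑ i, w j i) → KodairaGe (p + ∑ j, r j) {P | IsPrimeDivisor y P}
      (fun _ => 0) (p + big r s w)) : Abundance y (p + ∑ j, r j) p r s w := by
  have h00 : Effective y (0 : Place ℂ K → ℚ) := ⟨fun _ _ => le_rfl, by simp⟩
  obtain ⟨h1, h2⟩ := lc_ab hy.1 hy.2.1 h00 hA.1 hu (fun j => (hw j).1)
    (fun j i => ((hw j).2 i).1) (fun j i => ((hw j).2 i).2) (hC.cor hy.2.1 hy.2.2 hu)
  refine ⟨fun h => h2 (p + big r s w) h ?_ ?_, h1⟩
  · rw [add_assoc, big, ← Finset.sum_add_distrib]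
    congr 1
    refine Finset.sum_congr rfl fun j _ => ?_
    rcases lt_or_eq_of_le (h j) with h3 | h3
    · rw [if_pos h3, if_neg h3.ne', add_zero]
    · rw [if_neg (not_lt.2 h3.symm.le), if_pos h3.symm, zero_add]
  · have h3 := hK h
    have h4 : (fun P => (((0 : Place ℂ K → ℚ) P : ℚ) : ℝ)) = fun _ : Place ℂ K => (0 : ℝ) :=
      funext fun P => Rat.cast_zero
    rw [h4]
    exact h3

/-- **Abundance.** Let `X` be a projective variety with canonical singularities of dimension
`p + ∑ j, r j`, `b` the coordinates of a rational map `X ⇢ P^v` whose image has dimension `p`, and let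
the fibres be as in `Fibres`.

(1) Let `ℓ i = 0` be hyperplanes in general position which do not contain the image and impose
independent conditions on the forms of degree `d`, with weights `wt i ≥ 0` whose sum is greater than
`(p + 1) * γ`, where `γ = (v - p + d).choose (v - p)`, and let the multiplicities `e i` satisfy
`min (#{i | e i ≠ 0}) γ ≤ ∑ i, (1 - wt i) e i` at all prime divisors of `X`. Then `κ(X) = ν(X)` is `p`
plus the sum of the `r j` with `r j + 1 < ∑ i, w j i`, if `r j + 1 ≤ ∑ i, w j i` for all `j`, and `-∞`
otherwise.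

(2) Let `m ≥ 2`, `2 * v * m ≤ Q * (m - 1)` and `(v + Q).choose v < q`. For `q` general hyperplanes
(some polynomial `Ψ` does not vanish at the coefficients) the following holds: if `p ≥ 1` and the
multiplicities `e i` at the prime divisors of `X` are `0` or at least `m`, then `κ(X) = ν(X)` with the
same value. -/
theorem result {v q : ℕ} (hv : 1 ≤ v) :
    (∀ d p : ℕ, 0 < d → ∀ ℓ : Fin q → Fin (v + 1) → ℂ, Independent d ℓ → GeneralPosition ℓ →
      v + 1 ≤ q → ∀ (K : Type) [Field K] [Algebra ℂ K] (N c : ℕ) (r s : Fin c → ℕ)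
      (y : Fin (N + 1) → K), IsCanonicalVariety y (p + ∑ j, r j) →
      ∀ b : Fin (v + 1) → K, IsMap ℓ b p → ∀ wt : Fin q → ℚ, (∀ i, 0 ≤ wt i) →
      (((p + 1) * (v - p + d).choose (v - p) : ℕ) : ℚ) < ∑ i, wt i →
      (∀ P, IsPrimeDivisor y P → ∀ (c : ℤ) (e : Fin q → ℕ), OrdData P ℓ b c e →
        ((min (Finset.univ.filter fun i => e i ≠ 0).card ((v - p + d).choose (v - p)) : ℕ) : ℚ) ≤
          ∑ i, (1 - wt i) * e i) →
      ∀ w : ∀ j, Fin (s j) → ℚ, Fibres y (RF ℂ b) r s w →
      Abundance y (p + ∑ j, r j) p r s w) ∧
    ∀ m Q : ℕ, 2 ≤ m → 2 * v * m ≤ Q * (m - 1) → (v + Q).choose v < q →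
      ∃ Ψ : MvPolynomial (Fin q × Fin (v + 1)) ℂ, Ψ ≠ 0 ∧
        ∀ ℓ : Fin q → Fin (v + 1) → ℂ, MvPolynomial.eval (fun x => ℓ x.1 x.2) Ψ ≠ 0 →
        ∀ (K : Type) [Field K] [Algebra ℂ K] (N p c : ℕ) (r s : Fin c → ℕ)
        (y : Fin (N + 1) → K), 1 ≤ p → IsCanonicalVariety y (p + ∑ j, r j) →
        ∀ b : Fin (v + 1) → K, IsMap ℓ b p →
        (∀ P, IsPrimeDivisor y P → ∀ (c : ℤ) (e : Fin q → ℕ), OrdData P ℓ b c e →
          ∀ i, e i = 0 ∨ m ≤ e i) →
        ∀ w : ∀ j, Fin (s j) → ℚ, Fibres y (RF ℂ b) r s w →
        Abundance y (p + ∑ j, r j) p r s w := by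
  constructor
  · rintro d p hd ℓ hI hg hq K _ _ N c r s y hy b ⟨hl, hb, htr⟩ wt hwt hlt hmult w
      ⟨hw, K', _, _, _, _, _, A, u, hA, hu, hH, hC⟩
    refine abundance_of hy hw hA hu hC fun hws => ?_
    obtain ⟨κ, hκ, hκs⟩ := exists_idx r s w
    refine (lc_small (δ := fun _ => 0) (X := {P | IsPrimeDivisor y P}) hd hI hg hq hl hb
      htr hy.2.1 hwt hlt.le (fun P hP => le_rfl)
      (fun P hP _ c e ho => ?_) hA finSigmaFinEquiv hu (fun j i => ((hw j).2 i).1)
      hws hκ hκs hH).2 hlt
    have h3 := hmult P hP c e ho
    have h4 := (Rat.cast_le (K := ℝ)).2 h3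
    push_cast at h4 ⊢
    rw [mul_zero, zero_add]
    exact h4
  · intro m Q hm hQ hq
    obtain ⟨Ψ, hΨ, h⟩ := lc_general (n := v) (q' := q) hv hm hQ hq
    refine ⟨Ψ, hΨ, ?_⟩
    rintro ℓ hℓ K _ _ N p c r s y hp hy b ⟨hl, hb, htr⟩ hmult w
      ⟨hw, K', _, _, _, _, _, A, u, hA, hu, hH, hC⟩
    refine abundance_of hy hw hA hu hC fun hws => ?_
    obtain ⟨κ, hκ, hκs⟩ := exists_idx r s w
    refine h ℓ hℓ K p (∑ j, r j) (big r s w) hp hy.2.1 b hl hb htr {P | IsPrimeDivisor y P}
      (fun _ => 0) (fun P hP => le_rfl) (fun P hP _ c e ho i => ?_) K' c r s A u w hA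
      finSigmaFinEquiv hu (fun j i => ((hw j).2 i).1) hws κ hκ hκs hH
    rcases hmult P hP c e ho i with h1 | h1
    · exact Or.inl h1
    · right
      rw [sub_zero, mul_one]
      exact_mod_cast h1

end Pool.Agent.Results.MP_5ff3c6_ag.LogCanonicalArrangements
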