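import Pool.Agent.Y173.KU.Main

/-! Abundance for quotients of products `Y × F` with `Y` arbitrary and many closed 1-forms along
`F`. -/

set_option autoImplicit false
set_option linter.overlappingInstances false

open FF IntermediateField Pool.Agent.W619.TW Pool.Agent.W619.Y Pool.Agent.Y173.QA
  Pool.Agent.Y173.QM

namespace Pool.Agent.Results.MP_5ff3c6_ag.ProductQuotients

/-- Let `Y` and `F` be projective manifolds of dimensions `m` and `f` with function fields `M` and
`F`, `L` the function field of `Y × F` (the compositum of `M` and `F`), `G` a finite group of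
birational automorphisms of `Y × F` (which need not respect the product), `V` a `G`-stable space of
closed `1`-forms on the field `L`, regular along all prime divisors over `Y × F`, which generically
generates the relative cotangent bundle over `Y` (`hgen`), and `X` a projective manifold birational
to `(Y × F) / G`. Assume the relative condition of Reid-Tai type, and let `d` be the dimension of
the space of rational vector fields along `F` on which all forms in `V` are constant. Assume
`ν (F) ≤ f - d`. Then

* `κ (X) ≥ κ (Y) + f - d`,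
* `ν (X) ≤ ν (Y) + f - d`,
* if `K_X` is pseudo-effective, then so is `K_Y`.

So if `Y` satisfies the abundance conjecture, in the form that `κ (Y) = ν (Y)` if `K_Y` is
pseudo-effective, then so does `X`, with `κ (X) = ν (X) = κ (Y) + f - d`. -/
theorem result {k L : Type} [Field k] [CharZero k] [IsAlgClosed k] [Field L] [Algebra k L]
    [Algebra.EssFiniteType k L] {m f : ℕ} (hn : Algebra.trdeg k L = (m + f : ℕ))
    (M F : IntermediateField k L) [Algebra.EssFiniteType k M] [Algebra.EssFiniteType k F]
    (hM : Algebra.trdeg k M = m) (hF : Algebra.trdeg k F = f) (hsup : M ⊔ F = ⊤)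
    (G : Subgroup (L ≃ₐ[k] L)) [Finite G] (V : Submodule k (Derivation k L L →ₗ[L] L))
    (hreg : ∀ θ ∈ V, IsRegForm (m + f) θ) (hcl : ∀ θ ∈ V, IsClosedForm θ)
    (hstab : ∀ g ∈ G, ∀ θ ∈ V, ∃ θ' ∈ V, IsImage g θ θ')
    (hgen : ∃ θ : Fin f → Derivation k L L →ₗ[L] L, (∀ i, θ i ∈ V) ∧ IndepOver (m := m) M θ)
    (hRT : ReidTaiOver m f G M V) (d : ℕ) (hd : Module.finrank k (constFieldsOver M V) = d)
    (hνF : NumLe k F f (fun _ => False) (f - d)) :
    (∀ a, KodTr k M m a → KodTr k (fixedField G) (m + f) (a + (f - d))) ∧
      (∀ a, NumLe k M m (fun _ => False) a →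
        NumLe k (fixedField G) (m + f) (fun _ => False) (a + (f - d))) ∧
      (IsPsef k (fixedField G) (m + f) (fun _ => False) → IsPsef k M m (fun _ => False)) := by
  obtain ⟨b, h1, h2, -⟩ := mainM hn M hM G V hreg hcl hstab hgen hRT
  obtain ⟨h3, -, h4⟩ := down (m + f) hn G
  have hb : f - d = b := by omega
  rw [hb] at hνF ⊢
  exact ⟨h2, fun a ha => h4 _ (Pool.Agent.Y173.KU.prod_num hsup hn hM hF ha hνF),
    fun h => (Pool.Agent.Y173.KU.prod_psef hsup hn hM hF (h3 h)).1⟩

end Pool.Agent.Results.MP_5ff3c6_ag.ProductQuotients
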